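import Pool.Agent.H577R3.RM.Stmts

set_option autoImplicit false
set_option maxHeartbeats 4000000

/-! The effect of switching windows (task FX of the project on random metabelian groups). -/

namespace Pool.Agent.H821R3.RM.FX

open Pool.Agent.Helper777.Prof Pool.Agent.H577R3 Pool.Agent.H577R3.RM

theorem pos_succ {n ℓ : ℕ} (w : Fin ℓ → Lt n) (i : Fin ℓ) :
    pos w (i.1 + 1) = pos w i.1 + vec (w i) := by
  unfold pos
  have h : ∀ x : Fin ℓ, (if x.1 < i.1 + 1 then vec (w x) else 0) =
      (if x.1 < i.1 then vec (w x) else 0) + (if x = i then vec (w x) else 0) := by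
    intro x
    rcases lt_trichotomy x.1 i.1 with h | h | h
    · have h1 : x ≠ i := by
        rintro rfl
        exact lt_irrefl _ h
      rw [if_pos (by omega), if_pos h, if_neg h1, add_zero]
    · have h1 : x = i := Fin.ext h
      rw [if_pos (by omega), if_neg (by omega), if_pos h1, zero_add]
    · have h1 : x ≠ i := by
        rintro rfl
        exact lt_irrefl _ h
      rw [if_neg (by omega), if_neg (by omega), if_neg h1, add_zero]
  simp_rw [h]
  rw [Finset.sum_add_distrib]
  congr 1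
  simp

theorem pos_swap {n ℓ : ℕ} (w w' : Fin ℓ → Lt n) (a b : Fin ℓ) (hab : b.1 = a.1 + 1)
    (hw : ∀ i, w' i = w (Equiv.swap a b i)) (j : ℕ) (hj : j ≠ b.1) : pos w' j = pos w j := by
  have h1 : pos w' j = ∑ i : Fin ℓ, (fun i => if (Equiv.swap a b i).1 < j then vec (w i) else 0)
      (Equiv.swap a b i) := by
    unfold pos
    refine Finset.sum_congr rfl fun i _ => ?_
    simp only [Equiv.swap_apply_self, hw]
  rw [h1, Equiv.sum_comp (Equiv.swap a b)
    (fun i => if (Equiv.swap a b i).1 < j then vec (w i) else 0)]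
  unfold pos
  refine Finset.sum_congr rfl fun i _ => ?_
  by_cases hia : i = a
  · subst hia
    rw [Equiv.swap_apply_left]
    by_cases h : i.1 < j
    · rw [if_pos (by omega), if_pos h]
    · rw [if_neg (by omega), if_neg h]
  · by_cases hib : i = b
    · subst hib
      rw [Equiv.swap_apply_right]
      by_cases h : i.1 < j
      · rw [if_pos (by omega), if_pos h]
      · rw [if_neg (by omega), if_neg h]
    · rw [Equiv.swap_apply_of_ne_of_ne hia hib]

theorem mon_vec {K : Type} [Field K] {n : ℕ} (θ : Fin n → Kˣ) (p : Fin n → ℤ) (k : Fin n) :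
    (mon θ (Multiplicative.ofAdd (p + vec (k, true))) : K) =
      (mon θ (Multiplicative.ofAdd p) : K) * (θ k : K) := by
  have h1 : mon θ (Multiplicative.ofAdd (vec (k, true))) = θ k := by
    change ∏ l, θ l ^ (vec (k, true) l) = θ k
    rw [Finset.prod_eq_single k]
    · simp [vec]
    · intro l _ hl
      simp [vec, Pi.single_eq_of_ne hl]
    · simp
  rw [ofAdd_add, map_mul, h1, Units.val_mul]

theorem put_single {n ℓ : ℕ} (k k' : Fin n) (s : ℕ) (w : Fin ℓ → Lt n)
    (h : At w (6 * s + 1) (c0 k k')) (a b : Fin ℓ) (ha : a.1 = 6 * s + 2) (hb : b.1 = 6 * s + 3)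
    (i : Fin ℓ) : put k k' {s} w i = w (Equiv.swap a b i) := by
  obtain ⟨l0, h0⟩ := h 0
  obtain ⟨l1, h1⟩ := h 1
  obtain ⟨l2, h2⟩ := h 2
  obtain ⟨l3, h3⟩ := h 3
  simp only [Fin.val_zero, Fin.val_one, Fin.val_two, add_zero] at l0 l1 l2 h0 h1 h2
  have h33 : ((3 : Fin 4) : ℕ) = 3 := rfl
  rw [h33] at l3
  simp only [h33] at h3
  have ea : w a = (k, true) := by
    have : a = ⟨6 * s + 1 + 1, l1⟩ := Fin.ext (by simp [ha])
    rw [this, h1]
    rfl
  have eb : w b = (k', true) := by
    have : b = ⟨6 * s + 1 + 2, l2⟩ := Fin.ext (by simp [hb])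
    rw [this, h2]
    rfl
  unfold put
  by_cases hia : i = a
  · subst hia
    rw [Equiv.swap_apply_left, eb, dif_pos (by
      rw [Finset.mem_singleton]
      omega)]
    have : (⟨i.1 % 6 - 1, by omega⟩ : Fin 4) = 1 := Fin.ext (by simp; omega)
    rw [this]
    rfl
  · by_cases hib : i = b
    · subst hib
      rw [Equiv.swap_apply_right, ea, dif_pos (by
        rw [Finset.mem_singleton]
        omega)]
      have : (⟨i.1 % 6 - 1, by omega⟩ : Fin 4) = 2 := Fin.ext (by simp; omega)
      rw [this]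
      rfl
    · rw [Equiv.swap_apply_of_ne_of_ne hia hib]
      have hia' : i.1 ≠ a.1 := fun h => hia (Fin.ext h)
      have hib' : i.1 ≠ b.1 := fun h => hib (Fin.ext h)
      by_cases hc : i.1 / 6 ∈ ({s} : Finset ℕ) ∧ 1 ≤ i.1 % 6 ∧ i.1 % 6 ≤ 4
      · rw [dif_pos hc]
        rw [Finset.mem_singleton] at hc
        have : i.1 = 6 * s + 1 ∨ i.1 = 6 * s + 4 := by omega
        rcases this with h | h
        · have e1 : (⟨i.1 % 6 - 1, by omega⟩ : Fin 4) = 0 := Fin.ext (by simp; omega)
          have e2 : i = ⟨6 * s + 1, l0⟩ := Fin.ext h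
          rw [e1, e2, h0]
          rfl
        · have e1 : (⟨i.1 % 6 - 1, by omega⟩ : Fin 4) = 3 := Fin.ext (by rw [h33]; simp; omega)
          have e2 : i = ⟨6 * s + 1 + 3, l3⟩ := Fin.ext h
          rw [e1, e2, h3]
          rfl
      · rw [dif_neg hc]

theorem single {n ℓ : ℕ} (k k' : Fin n) (s : ℕ) (w : Fin ℓ → Lt n)
    (h : At w (6 * s + 1) (c0 k k')) :
    (IsRed w → IsRed (put k k' {s} w)) ∧
    (∀ t, Win k k' (put k k' {s} w) t ↔ Win k k' w t) ∧
    (∀ t, pos (put k k' {s} w) (6 * t + 1) = pos w (6 * t + 1)) ∧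
    pos (put k k' {s} w) ℓ = pos w ℓ ∧
    (∀ l, l ≠ k → l ≠ k' → fox (put k k' {s} w) l = fox w l) ∧
    ∀ (K : Type) [Field K] (θ : Fin n → Kˣ) (z : Fin n → K),
      der θ z (put k k' {s} w) = der θ z w +
        (θ k : K) * (((θ k' : K) - 1) * z k - ((θ k : K) - 1) * z k') *
        (mon θ (Multiplicative.ofAdd (pos w (6 * s + 1))) : K) := by
  obtain ⟨l0, h0⟩ := h 0
  obtain ⟨l1, h1⟩ := h 1
  obtain ⟨l2, h2⟩ := h 2
  obtain ⟨l3, h3⟩ := h 3
  have h33 : ((3 : Fin 4) : ℕ) = 3 := rfl
  have hwin : Win k k' w s := Or.inl h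
  have hput := put_single k k' s w h
  simp only [Fin.val_zero, Fin.val_one, Fin.val_two, add_zero] at l0 l1 l2 h0 h1 h2
  rw [h33] at l3
  simp only [h33] at h3
  obtain ⟨a, ha⟩ : ∃ a : Fin ℓ, a.1 = 6 * s + 2 := ⟨⟨6 * s + 2, by omega⟩, rfl⟩
  obtain ⟨b, hb⟩ : ∃ b : Fin ℓ, b.1 = 6 * s + 3 := ⟨⟨6 * s + 3, by omega⟩, rfl⟩
  have hput' := hput a b ha hb
  have hat1 : At (put k k' {s} w) (6 * s + 1) (c1 k k') := by
    intro i
    have hi : 6 * s + 1 + i.1 < ℓ := by have := i.2; omega
    refine ⟨hi, ?_⟩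
    unfold put
    have h5 : (6 * s + 1 + i.1) / 6 ∈ ({s} : Finset ℕ) ∧ 1 ≤ (6 * s + 1 + i.1) % 6 ∧
        (6 * s + 1 + i.1) % 6 ≤ 4 := by
      rw [Finset.mem_singleton]
      have := i.2
      omega
    rw [dif_pos h5]
    congr 1
    apply Fin.ext
    have := i.2
    simp only
    omega
  set w' := put k k' {s} w with hw'
  have ea : w a = (k, true) := by
    have : a = ⟨6 * s + 1 + 1, l1⟩ := Fin.ext (by simp [ha])
    rw [this, h1]
    rfl
  have eb : w b = (k', true) := by
    have : b = ⟨6 * s + 1 + 2, l2⟩ := Fin.ext (by simp [hb])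
    rw [this, h2]
    rfl
  have ec : ∀ c : Fin ℓ, c.1 = 6 * s + 1 → w c = (k, true) := by
    intro c hc
    have : c = ⟨6 * s + 1, l0⟩ := Fin.ext hc
    rw [this, h0]
    rfl
  have ed : ∀ c : Fin ℓ, c.1 = 6 * s + 4 → w c = (k', true) := by
    intro c hc
    have : c = ⟨6 * s + 1 + 3, l3⟩ := Fin.ext hc
    rw [this, h3]
    rfl
  have ea' : w' a = (k', true) := by rw [hput', Equiv.swap_apply_left, eb]
  have eb' : w' b = (k, true) := by rw [hput', Equiv.swap_apply_right, ea]
  have eo : ∀ i, i ≠ a → i ≠ b → w' i = w i := by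
    intro i hia hib
    rw [hput', Equiv.swap_apply_of_ne_of_ne hia hib]
  have hpos : ∀ j, j ≠ b.1 → pos w' j = pos w j :=
    fun j hj => pos_swap w w' a b (by omega) hput' j hj
  refine ⟨?_, ?_, ?_, ?_, ?_, ?_⟩
  · -- reduced
    intro hr i j hij
    by_cases hi : 6 * s + 1 ≤ i.1 ∧ i.1 ≤ 6 * s + 3
    · -- all letters are positive
      have hp : ∀ c : Fin ℓ, 6 * s + 1 ≤ c.1 → c.1 ≤ 6 * s + 4 → (w' c).2 = true := by
        intro c hc1 hc2
        by_cases hca : c = a
        · rw [hca, ea']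
        · by_cases hcb : c = b
          · rw [hcb, eb']
          · rw [eo c hca hcb]
            have h1 : c.1 ≠ a.1 := fun h => hca (Fin.ext h)
            have h2 : c.1 ≠ b.1 := fun h => hcb (Fin.ext h)
            have : c.1 = 6 * s + 1 ∨ c.1 = 6 * s + 4 := by omega
            rcases this with h | h
            · rw [ec c h]
            · rw [ed c h]
      intro _
      rw [hp i hi.1 (by omega), hp j (by omega) (by omega)]
    · have hia : i ≠ a := by
        rintro rfl
        omega
      have hib : i ≠ b := by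
        rintro rfl
        omega
      have hja : j ≠ a := by
        rintro rfl
        omega
      have hjb : j ≠ b := by
        rintro rfl
        omega
      rw [eo i hia hib, eo j hja hjb]
      exact hr i j hij
  · -- windows
    intro t
    by_cases hts : t = s
    · subst hts
      exact ⟨fun _ => hwin, fun _ => Or.inr hat1⟩
    · have key : ∀ c : Fin 4 → Lt n, At w' (6 * t + 1) c ↔ At w (6 * t + 1) c := by
        intro c
        unfold At
        refine forall_congr' fun i => ?_
        refine exists_congr fun hi => ?_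
        have := i.2
        rw [eo]
        · intro h
          have := congrArg Fin.val h
          simp only at this
          omega
        · intro h
          have := congrArg Fin.val h
          simp only at this
          omega
      unfold Win
      rw [key, key]
  · intro t
    exact hpos _ (by omega)
  · exact hpos _ (by omega)
  · -- Fox derivatives
    intro l hl hl'
    unfold fox
    refine Finset.sum_congr rfl fun i _ => ?_
    by_cases hia : i = a
    · subst hia
      rw [ea, ea']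
      simp only
      rw [if_neg (Ne.symm hl), if_neg (Ne.symm hl')]
    · by_cases hib : i = b
      · subst hib
        rw [eb, eb']
        simp only
        rw [if_neg (Ne.symm hl), if_neg (Ne.symm hl')]
      · have h1 : i.1 ≠ a.1 := fun h => hia (Fin.ext h)
        have h2 : i.1 ≠ b.1 := fun h => hib (Fin.ext h)
        rw [eo i hia hib, hpos i.1 h2, hpos (i.1 + 1) (by omega)]
  · -- derivations
    intro K _ θ z
    have hab : a ≠ b := by
      intro h
      have := congrArg Fin.val h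
      omega
    have hsum : der θ z w' - der θ z w =
        ∑ i ∈ ({a, b} : Finset (Fin ℓ)),
          ((mon θ (Multiplicative.ofAdd (pos w' i.1)) : K) *
            (if (w' i).2 then z (w' i).1 else -(((θ (w' i).1)⁻¹ : Kˣ) : K) * z (w' i).1) -
          (mon θ (Multiplicative.ofAdd (pos w i.1)) : K) *
            (if (w i).2 then z (w i).1 else -(((θ (w i).1)⁻¹ : Kˣ) : K) * z (w i).1)) := by
      unfold der
      rw [← Finset.sum_sub_distrib]
      symm
      refine Finset.sum_subset (Finset.subset_univ _) ?_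
      intro i _ hi
      have hia : i ≠ a := fun h => hi (by simp [h])
      have hib : i ≠ b := fun h => hi (by simp [h])
      have h2 : i.1 ≠ b.1 := fun h => hib (Fin.ext h)
      rw [eo i hia hib, hpos i.1 h2, sub_self]
    rw [Finset.sum_pair hab, ea, ea', eb, eb'] at hsum
    simp only [if_true] at hsum
    have p1 : pos w a.1 = pos w (6 * s + 1) + vec (k, true) := by
      have h6 := pos_succ w ⟨6 * s + 1, l0⟩
      rw [ec ⟨6 * s + 1, l0⟩ rfl] at h6
      simp only at h6
      rw [ha]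
      exact h6
    have p2 : pos w b.1 = pos w a.1 + vec (k, true) := by
      have h6 := pos_succ w a
      rw [ea] at h6
      rw [hb, ← h6, ha]
    have p3 : pos w' b.1 = pos w a.1 + vec (k', true) := by
      have h6 := pos_succ w' a
      rw [ea', hpos a.1 (by omega)] at h6
      rw [hb, ← h6, ha]
    rw [hpos a.1 (by omega), p3, p2, mon_vec, mon_vec, p1, mon_vec] at hsum
    have := eq_add_of_sub_eq' hsum
    rw [this]
    ring

theorem put_empty {n ℓ : ℕ} (k k' : Fin n) (w : Fin ℓ → Lt n) : put k k' ∅ w = w := by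
  funext i
  unfold put
  rw [dif_neg]
  simp

theorem put_insert {n ℓ : ℕ} (k k' : Fin n) (s : ℕ) (S : Finset ℕ) (w : Fin ℓ → Lt n) :
    put k k' (insert s S) w = put k k' {s} (put k k' S w) := by
  funext i
  unfold put
  by_cases h1 : i.1 / 6 = s ∧ 1 ≤ i.1 % 6 ∧ i.1 % 6 ≤ 4
  · rw [dif_pos (by
      rw [Finset.mem_insert]
      exact ⟨Or.inl h1.1, h1.2⟩), dif_pos (by
      rw [Finset.mem_singleton]
      exact h1)]
  · rw [dif_neg (c := i.1 / 6 ∈ ({s} : Finset ℕ) ∧ 1 ≤ i.1 % 6 ∧ i.1 % 6 ≤ 4) (by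
      rw [Finset.mem_singleton]
      exact h1)]
    by_cases h2 : i.1 / 6 ∈ S ∧ 1 ≤ i.1 % 6 ∧ i.1 % 6 ≤ 4
    · rw [dif_pos (by
        rw [Finset.mem_insert]
        exact ⟨Or.inr h2.1, h2.2⟩), dif_pos h2]
    · rw [dif_neg (by
        rw [Finset.mem_insert]
        rintro ⟨h3 | h3, h4⟩
        · exact h1 ⟨h3, h4⟩
        · exact h2 ⟨h3, h4⟩), dif_neg h2]

theorem put_at {n ℓ : ℕ} (k k' : Fin n) (s : ℕ) (S : Finset ℕ) (hs : s ∉ S) (w : Fin ℓ → Lt n)
    (c : Fin 4 → Lt n) (h : At w (6 * s + 1) c) : At (put k k' S w) (6 * s + 1) c := by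
  intro i
  obtain ⟨hi, he⟩ := h i
  refine ⟨hi, ?_⟩
  unfold put
  rw [dif_neg, he]
  rintro ⟨h1, _⟩
  have := i.2
  simp only at h1
  have h2 : (6 * s + 1 + i.1) / 6 = s := by omega
  rw [h2] at h1
  exact hs h1

theorem all {n ℓ : ℕ} (k k' : Fin n) (w : Fin ℓ → Lt n) (S : Finset ℕ)
    (h : ∀ s ∈ S, At w (6 * s + 1) (c0 k k')) :
    (IsRed w → IsRed (put k k' S w)) ∧
    (∀ t, Win k k' (put k k' S w) t ↔ Win k k' w t) ∧
    (∀ t, pos (put k k' S w) (6 * t + 1) = pos w (6 * t + 1)) ∧
    pos (put k k' S w) ℓ = pos w ℓ ∧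
    (∀ l, l ≠ k → l ≠ k' → fox (put k k' S w) l = fox w l) ∧
    ∀ (K : Type) [Field K] (θ : Fin n → Kˣ) (z : Fin n → K),
      der θ z (put k k' S w) = der θ z w +
        (θ k : K) * (((θ k' : K) - 1) * z k - ((θ k : K) - 1) * z k') *
        ∑ t ∈ S, (mon θ (Multiplicative.ofAdd (pos w (6 * t + 1))) : K) := by
  induction S using Finset.induction_on with
  | empty =>
    rw [put_empty]
    refine ⟨fun h => h, fun _ => Iff.rfl, fun _ => rfl, rfl, fun _ _ _ => rfl, ?_⟩
    intro K _ θ z
    simp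
  | insert s S hs ih =>
    obtain ⟨i1, i2, i3, i4, i5, i6⟩ := ih fun t ht => h t (Finset.mem_insert_of_mem ht)
    obtain ⟨j1, j2, j3, j4, j5, j6⟩ := single k k' s (put k k' S w)
      (put_at k k' s S hs w _ (h s (Finset.mem_insert_self s S)))
    rw [put_insert]
    refine ⟨fun h => j1 (i1 h), fun t => (j2 t).trans (i2 t), fun t => (j3 t).trans (i3 t),
      j4.trans i4, fun l hl hl' => (j5 l hl hl').trans (i5 l hl hl'), ?_⟩
    intro K _ θ z
    rw [j6, i6, Finset.sum_insert hs, i3]
    ring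

theorem taskFX : TaskFX := by
  intro n ℓ k k' w S _ hn hS
  refine all k k' w S ?_
  intro s hs
  have h1 := hS hs
  unfold TW at h1
  simp only [Finset.mem_filter] at h1
  rcases h1.2 with h2 | h2
  · exact h2
  · exact absurd h2 (hn s)

end Pool.Agent.H821R3.RM.FX
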